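import Pool.Agent.H7.LP.Targets3

/-!
# Codes in a Borel way
-/

set_option autoImplicit false

open Set Filter Topology

namespace Pool.Agent.H67.LQ

open Pool.Agent.H93.CP Pool.Agent.H7.LP Pool.Agent.H7.LQ

/-- A set which is given by countably many measurable cases is measurable. -/
theorem meas_cases {X ι : Type} [MeasurableSpace X] [MeasurableSpace ι]
    [MeasurableSingletonClass ι] [Countable ι] (f : X → ι) (hf : Measurable f)
    (P : ι → X → Prop) (hP : ∀ k, MeasurableSet {x | P k x}) :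
    MeasurableSet {x | P (f x) x} := by
  have h : {x | P (f x) x} = ⋃ k, (f ⁻¹' {k} ∩ {x | P k x}) := by
    ext x
    simp
  rw [h]
  exact MeasurableSet.iUnion fun k => (hf (measurableSet_singleton k)).inter (hP k)

/-- A map which is given by countably many measurable cases is measurable. -/
theorem map_cases {X ι A : Type} [MeasurableSpace X] [MeasurableSpace ι] [MeasurableSpace A]
    [MeasurableSingletonClass ι] [Countable ι] (f : X → ι) (hf : Measurable f)
    (F : ι → X → A) (hF : ∀ k, Measurable (F k)) :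
    Measurable fun x => F (f x) x := by
  intro s hs
  exact meas_cases f hf (fun k x => F k x ∈ s) fun k => hF k hs

theorem pf_CDM (h1 : T_LBT) (h2 : T_KKA) (h3 : T_BTG) (_h4 : T_NCO) : T_CDM := by
  intro G X _ _ _ _ _ _ _ _ B L M _ Y S
  classical
  -- tightness at the canonical points
  let TT : X → ℕ × ℕ × ℕ → Prop := fun x t =>
    Tight (L.R t.1) (KX B L Y t.1 t.2.1 x (S.nu t.1 t.2.2 x))
  have hTTm : ∀ t, MeasurableSet {x | TT x t} := by
    intro t
    have hf : Measurable (fun x : X => (x, S.nu t.1 t.2.2 x)) :=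
      measurable_id.prodMk (S.meas t.1 t.2.2)
    exact hf (h3 G X B L M Y t.1 t.2.1)
  have hex : ∀ x, ∃ j : ℕ, TT x (Denumerable.ofNat (ℕ × ℕ × ℕ) j) := by
    intro x
    obtain ⟨hc, hl, -, -⟩ := h1 G X L M Y 0 x (S.nu 0 0 x)
    obtain ⟨ha, -, -, -, -, hO⟩ := h2 G B (L.R 0) (L.H 0) (lb L Y 0 x (S.nu 0 0 x)) (L.piece 0)
      hc hl
    have hb : L.R 0 ≤ Stb (L.H 0) (lb L Y 0 x (S.nu 0 0 x)) :=
      (ha 0).trans (h2 G B (L.R 0) (L.H 0) (lb L Y 0 x (S.nu 0 0 x)) (L.piece 0) hc hl |>.2.1 0)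
    obtain ⟨m, -, hm⟩ := hO _ hb le_rfl ⟨univ, univ_mem, fun g hg _ => hg⟩
    refine ⟨Encodable.encode ((0, m, 0) : ℕ × ℕ × ℕ), ?_⟩
    rw [Denumerable.ofNat_encode]
    exact hm
  let fst : X → ℕ := fun x => Nat.find (hex x)
  have hfst : Measurable fst :=
    measurable_find (p := fun x n => TT x (Denumerable.ofNat (ℕ × ℕ × ℕ) n)) hex
      fun n => hTTm _
  let q : ℕ → ℕ × ℕ × ℕ := fun i => Denumerable.ofNat (ℕ × ℕ × ℕ) (Nat.unpair i).1
  let t : X → ℕ → ℕ × ℕ × ℕ := fun x i =>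
    if TT x (q i) then q i else Denumerable.ofNat (ℕ × ℕ × ℕ) (fst x)
  have htm : ∀ i, Measurable fun x => t x i := by
    intro i
    exact Measurable.ite (hTTm (q i)) measurable_const
      ((measurable_from_top (f := fun n : ℕ => Denumerable.ofNat (ℕ × ℕ × ℕ) n)).comp hfst)
  have htT : ∀ x i, TT x (t x i) := by
    intro x i
    by_cases h : TT x (q i)
    · have : t x i = q i := if_pos h
      rw [this]
      exact h
    · have : t x i = Denumerable.ofNat (ℕ × ℕ × ℕ) (fst x) := if_neg h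
      rw [this]
      exact Nat.find_spec (hex x)
  refine ⟨fun x i => ((t x i).1, (t x i).2.1, S.nu (t x i).1 (t x i).2.2 x), ?_, ?_⟩
  · intro i
    exact map_cases (fun x => t x i) (htm i)
      (fun s x => (s.1, s.2.1, S.nu s.1 s.2.2 x)) fun s =>
        measurable_const.prodMk (measurable_const.prodMk (S.meas s.1 s.2.2))
  · intro x
    refine ⟨fun i => ⟨S.can _ _ _, htT x i⟩, ?_⟩
    intro k m g hg N
    obtain ⟨hc, hl, htr, -⟩ := h1 G X L M Y k x g
    obtain ⟨-, -, hop, -, -, -⟩ := h2 G B (L.R k) (L.H k) (lb L Y k x g) (L.piece k) hc hl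
    obtain ⟨U, hU, hUK⟩ := hop m
    have hH : (L.H k : Set G) ∈ 𝓝 (1 : G) := (L.piece k).op.mem_nhds (L.H k).one_mem
    have hO : {g' : G | g * g'⁻¹ ∈ U ∩ (L.H k : Set G)} ∈ 𝓝 g := by
      have hcon : Tendsto (fun g' : G => g * g'⁻¹) (𝓝 g) (𝓝 (g * g⁻¹)) :=
        (continuous_const.mul continuous_inv).continuousAt
      rw [mul_inv_cancel] at hcon
      exact hcon (inter_mem hU hH)
    obtain ⟨n, hn, hlab⟩ := S.all k x g hg.1 _ hO
    obtain ⟨hnU, hnH⟩ := hn
    have e1 : lb L Y k x g = tr (g * (S.nu k n x)⁻¹) (lb L Y k x g) := by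
      have h5 := (h1 G X L M Y k x (S.nu k n x)).2.2.1 (g * (S.nu k n x)⁻¹) hnH
      rw [inv_mul_cancel_right, hlab] at h5
      exact h5
    have hK : g * (S.nu k n x)⁻¹ ∈ KX B L Y k m x g := hUK _ ⟨hnH, e1.symm⟩ hnU
    have hKK : KX B L Y k m x (S.nu k n x) = KX B L Y k m x g := by
      unfold KX
      rw [hlab]
    have hTn : TT x (k, m, n) := by
      change Tight (L.R k) (KX B L Y k m x (S.nu k n x))
      rw [hKK]
      exact hg.2
    have hq : q (Nat.pair (Encodable.encode ((k, m, n) : ℕ × ℕ × ℕ)) N) = (k, m, n) := by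
      simp only [q, Nat.unpair_pair, Denumerable.ofNat_encode]
    have htq : t x (Nat.pair (Encodable.encode ((k, m, n) : ℕ × ℕ × ℕ)) N) = (k, m, n) := by
      have : t x (Nat.pair (Encodable.encode ((k, m, n) : ℕ × ℕ × ℕ)) N) = q _ :=
        if_pos (by rw [hq]; exact hTn)
      rw [this, hq]
    refine ⟨Nat.pair (Encodable.encode ((k, m, n) : ℕ × ℕ × ℕ)) N, Nat.right_le_pair _ _, ?_⟩
    simp only [htq]
    refine ⟨trivial, trivial, ?_⟩
    rw [hKK]
    exact hK

end Pool.Agent.H67.LQ
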