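import Pool.Agent.H67.LQ.CDM

/-!
# A Borel map to structures
-/

set_option autoImplicit false

open Set Filter Topology

namespace Pool.Agent.H67.LQ

open Pool.Agent.H93.CP Pool.Agent.H7.LP Pool.Agent.H7.LQ

/-- Decisions of measurable statements are measurable. -/
theorem meas_decide {X : Type} [MeasurableSpace X] (P : X → Prop) [∀ x, Decidable (P x)]
    (h : MeasurableSet {x | P x}) : Measurable fun x => decide (P x) := by
  refine measurable_to_bool ?_
  have e : (fun x => decide (P x)) ⁻¹' {true} = {x | P x} := by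
    ext x
    simp
  rw [e]
  exact h

theorem pf_UMX (h1 : T_CDM) (h2 : T_LBM) (h3 : T_BLE) (h4 : T_BQQ) : T_UMX := by
  intro G X _ _ _ _ _ _ _ _ B L M _ Y S
  classical
  obtain ⟨E, hE, hcd⟩ := h1 G X B L M Y S
  have e1 : ∀ i, Measurable fun x => (E x i).1 := fun i => (hE i).fst
  have e2 : ∀ i, Measurable fun x => (E x i).2.1 := fun i => (hE i).snd.fst
  have e3 : ∀ i, Measurable fun x => (E x i).2.2 := fun i => (hE i).snd.snd
  have m1 : ∀ i n p, MeasurableSet
      {x | (lb L Y (E x i).1 x (E x i).2.2 n ∩ B.U p).Nonempty} := by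
    intro i n p
    refine meas_cases (fun x => (E x i).1) (e1 i)
      (fun k x => (lb L Y k x (E x i).2.2 n ∩ B.U p).Nonempty) fun k => ?_
    have hf : Measurable (fun x : X => (x, (E x i).2.2)) := measurable_id.prodMk (e3 i)
    exact hf (h2 G X L M Y k n (B.U p) (B.opn p))
  have m2 : ∀ i j, MeasurableSet {x | Le B L Y x (E x i) (E x j)} := by
    intro i j
    refine meas_cases (fun x => (((E x i).1, (E x i).2.1), ((E x j).1, (E x j).2.1)))
      (((e1 i).prodMk (e2 i)).prodMk ((e1 j).prodMk (e2 j)))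
      (fun k x => Le B L Y x (k.1.1, k.1.2, (E x i).2.2) (k.2.1, k.2.2, (E x j).2.2)) fun k => ?_
    have hf : Measurable (fun x : X => (x, (E x i).2.2, (E x j).2.2)) :=
      measurable_id.prodMk ((e3 i).prodMk (e3 j))
    exact hf (h3 G X B L M Y k.1.1 k.1.2 k.2.1 k.2.2)
  have m3 : ∀ i j p, MeasurableSet {x | ∃ u ∈ KX B L Y (E x j).1 (E x j).2.1 x (E x j).2.2,
      (E x i).2.2 * ((E x j).2.2)⁻¹ * u ∈ B.U p} := by
    intro i j p
    refine meas_cases (fun x => ((E x j).1, (E x j).2.1)) ((e1 j).prodMk (e2 j))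
      (fun k x => ∃ u ∈ KX B L Y k.1 k.2 x (E x j).2.2,
        (E x i).2.2 * ((E x j).2.2)⁻¹ * u ∈ B.U p) fun k => ?_
    have hf : Measurable (fun x : X => (x, (E x i).2.2, (E x j).2.2)) :=
      measurable_id.prodMk ((e3 i).prodMk (e3 j))
    exact hf (h4 G X B L M Y k.1 k.2 (B.U p) (B.opn p))
  refine ⟨fun x => (fun i => ((E x i).1, (E x i).2.1,
    fun c => decide (lb L Y (E x i).1 x (E x i).2.2 c.1 ∩ B.U c.2).Nonempty),
    fun i j => (decide (Le B L Y x (E x i) (E x j)),
      fun p => decide (Le B L Y x (E x i) (E x j) ∧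
        ∃ u ∈ KX B L Y (E x j).1 (E x j).2.1 x (E x j).2.2,
          (E x i).2.2 * ((E x j).2.2)⁻¹ * u ∈ B.U p))), ?_, ?_⟩
  · refine Measurable.prodMk (measurable_pi_lambda _ fun i => ?_)
      (measurable_pi_lambda _ fun i => measurable_pi_lambda _ fun j => ?_)
    · refine (e1 i).prodMk ((e2 i).prodMk (measurable_pi_lambda _ fun c => ?_))
      exact meas_decide _ (m1 i c.1 c.2)
    · refine Measurable.prodMk (meas_decide _ (m2 i j)) (measurable_pi_lambda _ fun p => ?_)
      exact meas_decide (fun x => Le B L Y x (E x i) (E x j) ∧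
        ∃ u ∈ KX B L Y (E x j).1 (E x j).2.1 x (E x j).2.2,
          (E x i).2.2 * ((E x j).2.2)⁻¹ * u ∈ B.U p) ((m2 i j).inter (m3 i j p))
  · intro x
    refine ⟨E x, hcd x, fun i => rfl, fun i => rfl, ?_, ?_, ?_⟩
    · intro i n p
      simp
    · intro i j
      simp
    · intro i j p
      simp only [decide_eq_true_eq]

end Pool.Agent.H67.LQ
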